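import Pool.Agent.W719.AR.Geo

/-! # Task AR-ANG of project AR (helper398) -/

set_option autoImplicit false

namespace Pool.Agent.W398.AR

open Pool.Agent.W719.AR Pool.Agent.W711.HT
open scoped Real

theorem HP_symm {ψ ψ' u : ℂ} (h : HP ψ ψ' u) : HP ψ' ψ u := by
  refine ⟨h.ne', h.ne, h.sm', h.sm, h.un, ?_⟩
  rw [h.eq, mul_comm (Complex.cos ψ) (Complex.cos ψ'),
    show 2 + Complex.cos ψ + Complex.cos ψ' = 2 + Complex.cos ψ' + Complex.cos ψ by ring]

/-- the pair of angles of an edge at a vertex with the critical point `ψ` -/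
def E (ψ : ℂ) (x : Fl × Fl) : Prop := ∃ ψ' u : ℂ, HP ψ ψ' u ∧ x = (fla ψ u, fla ψ' u)

theorem isChain_all {α : Type} {R : α → α → Prop} : ∀ l : List α,
    (∀ x ∈ l, ∀ y ∈ l, R x y) → l.IsChain R
  | [], _ => List.isChain_nil
  | [a], _ => List.isChain_singleton a
  | a :: b :: l, h => by
    rw [List.isChain_cons_cons]
    refine ⟨h a (by simp) b (by simp), isChain_all (b :: l) fun x hx y hy => ?_⟩
    exact h x (List.mem_cons_of_mem _ hx) y (List.mem_cons_of_mem _ hy)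

theorem vok (hS : S_SHP) {w : ℤ} {ψ : ℂ} {l : List (Fl × Fl)} (hl : ∀ x ∈ l, E ψ x)
    (hsum : (l.map fun y => y.1.cr).sum = 2 * π + w * ψ.re) : VOK w l := by
  have htw : ∀ x ∈ l, x.1.tw = ψ.re := by
    intro x hx
    obtain ⟨ψ', u, h, rfl⟩ := hl x hx
    exact (hS ψ ψ' u h).2.2.2.2.1
  refine ⟨isChain_all _ ?_, ?_, ?_⟩
  · intro x hx y hy
    have hx' : x ∈ l := by
      rcases List.mem_append.1 hx with h | h
      · exact h
      · exact List.mem_of_mem_take h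
    have hy' : y ∈ l := by
      rcases List.mem_append.1 hy with h | h
      · exact h
      · exact List.mem_of_mem_take h
    obtain ⟨ψ₁, u₁, h₁, rfl⟩ := hl x hx'
    obtain ⟨ψ₂, u₂, h₂, rfl⟩ := hl y hy'
    have e1 := (hS ψ ψ₁ u₁ h₁).2.2.1
    have e2 := (hS ψ ψ₂ u₂ h₂).2.2.2.1
    unfold Gap
    simp only
    linarith
  · intro x hx y hy
    rw [htw x hx, htw y hy]
  · intro x hx
    rw [htw x hx]
    exact hsum

theorem ang_wt (dl : ℂ → ℂ → ℂ) : ∀ p : PT, (p.ang dl).wt = p.wt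
  | .vx _ _ => rfl
  | .br t _ => ang_wt dl t

theorem ang_shape (dl : ℂ → ℂ → ℂ) : ∀ p : PT, (p.ang dl).shape = p.shape
  | .vx _ _ => rfl
  | .br t c => by
    change Tr.br (t.ang dl).shape (c.ang dl).shape = Tr.br t.shape c.shape
    rw [ang_shape dl t, ang_shape dl c]

theorem ang_fl (hS : S_SHP) (dl : ℂ → ℂ → ℂ) : ∀ p : PT, p.hpt dl →
    (∀ x ∈ (p.ang dl).fl, E p.rz x) ∧ ((p.ang dl).fl.map fun y => y.1.cr).sum = (p.lg dl).im
  | .vx a z, _ => by
    refine ⟨?_, ?_⟩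
    · intro x hx
      simp [PT.ang, AT.fl] at hx
    · simp [PT.ang, AT.fl, PT.lg]
  | .br t c, h => by
    obtain ⟨h1, h2, h3⟩ := h
    obtain ⟨g1, g2⟩ := ang_fl hS dl t h1
    have h4 := HP_symm h3
    refine ⟨?_, ?_⟩
    · intro x hx
      have hx' : x ∈ (t.ang dl).fl ++ [(fla t.rz (2 * π * dl c.rz t.rz),
          fla c.rz (2 * π * dl c.rz t.rz))] := hx
      rcases List.mem_append.1 hx' with h | h
      · exact g1 x h
      · rw [List.mem_singleton] at h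
        exact ⟨_, _, h4, h⟩
    · change (((t.ang dl).fl ++ [(fla t.rz (2 * π * dl c.rz t.rz),
          fla c.rz (2 * π * dl c.rz t.rz))]).map fun y => y.1.cr).sum =
        (t.lg dl + Lg (2 * π * dl c.rz t.rz) t.rz).im
      rw [List.map_append, List.sum_append, g2, Complex.add_im]
      simp only [List.map_cons, List.map_nil, List.sum_cons, List.sum_nil, add_zero]
      rw [(hS _ _ _ h4).2.2.2.2.2]

theorem im_eq {w : ℤ} {z : ℂ} : (Complex.I * (w * z + 2 * π)).im = 2 * π + w * z.re := by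
  simp
  ring

theorem ang_isok (hS : S_SHP) (dl : ℂ → ℂ → ℂ) : ∀ p : PT, p.hpt dl → p.lcr dl → (p.ang dl).OK
  | .vx _ _, _, _ => trivial
  | .br t c, h, h' => by
    obtain ⟨h1, h2, h3⟩ := h
    obtain ⟨k1, k2, k3⟩ := h'
    have h4 := HP_symm h3
    obtain ⟨g1, g2⟩ := ang_fl hS dl c h2
    have s3 := hS _ _ _ h3
    have s4 := hS _ _ _ h4
    refine ⟨ang_isok hS dl t h1 k1, ang_isok hS dl c h2 k2, s4.1, s3.1, s4.2.1, ?_⟩
    rw [ang_wt]
    apply vok hS (ψ := c.rz)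
    · intro x hx
      rcases List.mem_cons.1 hx with rfl | hx
      · exact ⟨_, _, h3, rfl⟩
      · exact g1 x hx
    · rw [List.map_cons, List.sum_cons, g2, ← im_eq, k3, Complex.add_im]
      simp only
      rw [s3.2.2.2.2.2]

theorem ang_vol (hV : S_VLF) (dl : ℂ → ℂ → ℂ) : ∀ p : PT, p.hpt dl →
    (p.ang dl).vol = p.hs dl
  | .vx _ _, _ => rfl
  | .br t c, h => by
    obtain ⟨h1, h2, h3⟩ := h
    change (t.ang dl).vol + (c.ang dl).vol + 2 * ((fla t.rz (2 * π * dl c.rz t.rz)).vol +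
      (fla c.rz (2 * π * dl c.rz t.rz)).vol) = t.hs dl + c.hs dl + hv c.rz t.rz
        (2 * π * dl c.rz t.rz)
    rw [ang_vol hV dl t h1, ang_vol hV dl c h2, ← hV _ _ _ h3]
    ring

theorem ang_ok : S_SHP → S_VLF → S_ANG := by
  intro hS hV dl p h1 h2 h3 h4
  obtain ⟨g1, g2⟩ := ang_fl hS dl p h1
  refine ⟨ang_shape dl p, ⟨ang_isok hS dl p h1 h2, ?_⟩, ang_vol hV dl p h1⟩
  rw [ang_wt]
  apply vok hS g1
  rw [g2, ← im_eq, h4]

end Pool.Agent.W398.AR
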